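import Pool.Agent.X14.TK4

set_option autoImplicit false

/-!
# Five congruences modulo `p ^ 2` for sums of central binomial and trinomial coefficients
-/

namespace Pool.Agent.Results.MP_20e244_nt.FiveSums

open Finset Polynomial Pool.Agent.X14.TK

/-- `T_n(b, c)`: the coefficient of `x ^ n` in `(x ^ 2 + b x + c) ^ n`. -/
noncomputable def trin (b c : ℤ) (n : ℕ) : ℤ := ((X ^ 2 + C b * X + C c : ℤ[X]) ^ n).coeff n

/-- The Catalan number `binom(2 j, j) / (j + 1)`. -/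
def cat (j : ℕ) : ℚ := ((2 * j).choose j : ℚ) / (j + 1)

/-- `(p / 3)`: equal to `1` when `p` is `1` modulo `3` and to `-1` otherwise. -/
def char3 (p : ℕ) : ℤ := if p % 3 = 1 then 1 else -1

/-- `x` and `y` differ by `p ^ 2` times a rational number whose denominator is prime to `p`. -/
def CongSq (p : ℕ) (x y : ℚ) : Prop := ∃ z : ℚ, Nat.Coprime z.den p ∧ x - y = (p : ℚ) ^ 2 * z

lemma cong_of {p : ℕ} [Fact p.Prime] {x y z : ℚ} (h : Pool.Agent.H434R2.PO p 2 (x - y)) (e : y = z) : CongSq p x z := by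
  obtain ⟨r, hr, hr'⟩ := h.exists_rep
  exact ⟨r, hr, by rw [← e]; exact hr'⟩

lemma leg_chi {p : ℕ} [hp : Fact p.Prime] {n : ℕ} (hn : p = 2 * n + 1) (h3 : p ≠ 3) :
    legendreSym p 3 = (-1) ^ n * chi3 p := by
  have h2 : p ≠ 2 := by omega
  have h := neg3_mod hn h3
  have h1 : (p : ℤ) ∣ (3 : ℤ) ^ n - (-1) ^ n * chi3 p := by
    have e : (((3 : ℤ) ^ n - (-1) ^ n * chi3 p : ℤ) : ℚ) = (((-1) ^ n : ℤ) : ℚ) * ((-3 : ℚ) ^ n - chi3 p) := by
      push_cast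
      rw [neg_pow (3 : ℚ) n]
      have s : ((-1 : ℚ) ^ n) * (-1) ^ n = 1 := by rw [← mul_pow]; simp
      linear_combination (-(3 : ℚ) ^ n) * s
    have h4 : Pool.Agent.H434R2.PO p 1 (((3 : ℤ) ^ n - (-1) ^ n * chi3 p : ℤ) : ℚ) := by
      rw [e]; exact (Pool.Agent.H434R2.PO.of_int _).mul0 h
    have := Pool.Agent.X14.dvd_of_PO h4
    rwa [pow_one] at this
  have h5 := legendreSym.eq_pow p 3
  have h6 : p / 2 = n := by omega
  rw [h6] at h5
  have h7 : ((((3 : ℤ) ^ n - (-1) ^ n * chi3 p : ℤ)) : ZMod p) = 0 := (ZMod.intCast_zmod_eq_zero_iff_dvd _ p).2 h1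
  have h8 : ((legendreSym p 3 - (-1) ^ n * chi3 p : ℤ) : ZMod p) = 0 := by
    push_cast at h7 h5 ⊢
    rw [h5]; exact h7
  have h9 : (p : ℤ) ∣ legendreSym p 3 - (-1) ^ n * chi3 p := (ZMod.intCast_zmod_eq_zero_iff_dvd _ p).1 h8
  have h10 : ((3 : ℤ) : ZMod p) ≠ 0 := by
    intro hz
    have hd := (ZMod.intCast_zmod_eq_zero_iff_dvd _ p).1 hz
    have hd' : p ∣ 3 := by exact_mod_cast hd
    exact h3 ((Nat.prime_dvd_prime_iff_eq hp.out Nat.prime_three).1 hd')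
  have hp2 : 2 < p := by have := hp.out.two_le; omega
  have hc : chi3 p = 1 ∨ chi3 p = -1 := by
    unfold chi3; split_ifs
    · left; rfl
    · right; rfl
  have hs : ((-1 : ℤ)) ^ n = 1 ∨ ((-1 : ℤ)) ^ n = -1 := neg_one_pow_eq_or ℤ n
  have hl := legendreSym.eq_one_or_neg_one p h10
  obtain ⟨c, hc'⟩ := h9
  have hp' : (2 : ℤ) < p := by exact_mod_cast hp2
  have hc0 : c = 0 := by
    by_contra hne
    have habs : (p : ℤ) ≤ |(p : ℤ) * c| := by
      rw [abs_mul, abs_of_pos (by omega : (0 : ℤ) < p)]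
      have := Int.one_le_abs hne
      nlinarith
    rw [← hc'] at habs
    have hb : |legendreSym p 3 - (-1) ^ n * chi3 p| ≤ 2 := by
      rcases hl with h | h <;> rcases hs with h' | h' <;> rcases hc with h'' | h'' <;> rw [h, h', h''] <;> norm_num
    omega
  rw [hc0, mul_zero] at hc'
  omega

lemma leg_neg_one {p : ℕ} [hp : Fact p.Prime] {n : ℕ} (hn : p = 2 * n + 1) : legendreSym p (-1) = (-1) ^ n := by
  have h2 : p ≠ 2 := by omega
  rw [legendreSym.at_neg_one h2, ZMod.χ₄_eq_neg_one_pow (by omega)]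
  congr 1
  omega

/-- **Theorem.** For every prime `p > 3` the five congruences hold modulo `p ^ 2`. -/
theorem result (p : ℕ) [hp : Fact p.Prime] (h3 : 3 < p) :
    CongSq p (∑ j ∈ range p, (trin 1 1 j : ℚ) * ((2 * j).choose j : ℚ) / 12 ^ j) ((3 + 3 ^ (p - 1)) / 4 * char3 p) ∧
    CongSq p (∑ j ∈ range ((p - 1) / 2 + 1), (trin 4 1 (2 * j) : ℚ) * ((2 * j).choose j : ℚ) / 16 ^ j) 1 ∧
    CongSq p (∑ j ∈ range ((p - 1) / 2 + 1), (trin 4 1 (2 * j) : ℚ) * cat j / 16 ^ j)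
      (4 / 3 * ((legendreSym p 3 : ℚ) - p * (legendreSym p (-1) : ℚ))) ∧
    CongSq p (∑ j ∈ range ((p - 1) / 2 + 1), (trin 3 4 (2 * j) : ℚ) * ((2 * j).choose j : ℚ) / 4 ^ j)
      ((7 - 3 ^ p) / 4 * (legendreSym p (-1) : ℚ)) ∧
    CongSq p (∑ j ∈ range ((p - 1) / 2 + 1), (trin 8 9 (2 * j) : ℚ) * ((2 * j).choose j : ℚ) / 16 ^ j) (legendreSym p 3 : ℚ) := by
  have hodd : Odd p := hp.out.odd_of_ne_two (by omega)
  obtain ⟨n, hn⟩ := hodd
  have h3' : p ≠ 3 := by omega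
  have hn0 : 0 < n := by omega
  have hN : (p - 1) / 2 + 1 = n + 1 := by omega
  rw [hN]
  have hT : ∀ b c m, trin b c m = T b c m := fun _ _ _ => rfl
  have hcb : ∀ j : ℕ, (2 * j).choose j = j.centralBinom := fun _ => rfl
  have hchar : char3 p = chi3 p := rfl
  have s : ((-1 : ℚ) ^ n) * (-1) ^ n = 1 := by rw [← mul_pow]; simp
  have hsn : Pool.Agent.H434R2.PO p 0 ((-1 : ℚ) ^ n) := by
    have : ((-1 : ℚ) ^ n) = (((-1) ^ n : ℤ) : ℚ) := by push_cast; rfl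
    rw [this]; exact Pool.Agent.H434R2.PO.of_int _
  have hl3 : (legendreSym p 3 : ℚ) = (-1) ^ n * (chi3 p : ℚ) := by rw [leg_chi hn h3']; push_cast; rfl
  have hl1 : (legendreSym p (-1) : ℚ) = (-1) ^ n := by rw [leg_neg_one hn]; push_cast; rfl
  simp only [hT, hcb, cat]
  rw [hchar, hl3, hl1]
  refine ⟨cong_of (full_main hn h3') rfl, ?_, ?_, ?_, ?_⟩
  · have h := half_main hn 1
    have h' := h.add (hsn.mul0 (hh_neg_one hn))
    refine cong_of (z := 1) (y := 1) ?_ rfl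
    have e : (∑ j ∈ range (n + 1), (T 4 1 (2 * j) : ℚ) * (j.centralBinom : ℚ) / 16 ^ j) - 1 =
        (∑ j ∈ range (n + 1), (j.centralBinom : ℚ) / 16 ^ j * (T (2 + 2 * 1) (1 ^ 2) (2 * j) : ℚ)) - (-1) ^ n * hh n (-((1 : ℤ) : ℚ)) +
        (-1) ^ n * (hh n (-1) - (-1) ^ n) := by
      have e1 : (2 + 2 * 1 : ℤ) = 4 := by norm_num
      have e2 : (1 : ℤ) ^ 2 = 1 := by norm_num
      rw [e1, e2]
      have : ∀ j : ℕ, (T 4 1 (2 * j) : ℚ) * (j.centralBinom : ℚ) / 16 ^ j = (j.centralBinom : ℚ) / 16 ^ j * (T 4 1 (2 * j) : ℚ) := by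
        intro j; ring
      simp only [this]
      push_cast
      linear_combination s
    rw [e]
    exact h'
  · have h := cat_half hn hn0 h3'
    refine cong_of (y := 4 / 3 * ((-1) ^ n * ((chi3 p : ℚ) - p))) ?_ (by ring)
    have : ∀ j : ℕ, (T 4 1 (2 * j) : ℚ) * ((j.centralBinom : ℚ) / (j + 1)) / 16 ^ j = (j.centralBinom : ℚ) / (j + 1) / 16 ^ j * (T 4 1 (2 * j) : ℚ) := by
      intro j; ring
    simp only [this]
    exact h
  · have h := half_main hn (-4)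
    have h' := h.add (hsn.mul0 (hh_four hn h3'))
    refine cong_of (y := (7 - 3 ^ p) / 4 * (-1) ^ n) ?_ rfl
    have key : ∀ j : ℕ, (T (2 + 2 * (-4)) ((-4) ^ 2) (2 * j) : ℤ) = 4 ^ j * T 3 4 (2 * j) := by
      intro j
      have h1 := T_expand 2 (-4) (2 * j)
      have h2 := T_expand (-1) 2 (2 * j)
      rw [show (-1 + 2 * 2 : ℤ) = 3 by norm_num, show (2 : ℤ) ^ 2 = 4 by norm_num] at h2
      rw [h1, h2, mul_sum]
      apply sum_congr rfl
      intro i hi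
      have hi' := mem_range.1 hi
      have h4 : (4 : ℤ) ^ j = 2 ^ (2 * j - i) * 2 ^ i := by
        rw [← pow_add, show 2 * j - i + i = 2 * j by omega, pow_mul]; norm_num
      have h5 : (-1 : ℤ) ^ (2 * j - i) = (-1) ^ i := by
        have e1 : (-1 : ℤ) ^ (2 * j - i) * (-1) ^ i = 1 := by
          rw [← pow_add, show 2 * j - i + i = 2 * j by omega, pow_mul]; simp
        have e2 : ((-1 : ℤ) ^ i) * (-1) ^ i = 1 := by rw [← mul_pow]; simp
        linear_combination (-1 : ℤ) ^ i * e1 - (-1 : ℤ) ^ (2 * j - i) * e2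
      have h6 : (-4 : ℤ) ^ i = (-1) ^ i * (2 ^ i * 2 ^ i) := by rw [← mul_pow, ← mul_pow]; norm_num
      rw [h4, h5, h6]
      ring
    have e : (∑ j ∈ range (n + 1), (T 3 4 (2 * j) : ℚ) * (j.centralBinom : ℚ) / 4 ^ j) - (7 - 3 ^ p) / 4 * (-1) ^ n =
        (∑ j ∈ range (n + 1), (j.centralBinom : ℚ) / 16 ^ j * (T (2 + 2 * (-4)) ((-4) ^ 2) (2 * j) : ℚ)) - (-1) ^ n * hh n (-((-4 : ℤ) : ℚ)) +
        (-1) ^ n * (hh n 4 - (7 - 3 ^ p) / 4) := by
      have : ∀ j : ℕ, (T 3 4 (2 * j) : ℚ) * (j.centralBinom : ℚ) / 4 ^ j =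
          (j.centralBinom : ℚ) / 16 ^ j * ((T (2 + 2 * (-4)) ((-4) ^ 2) (2 * j) : ℤ) : ℚ) := by
        intro j
        rw [key]
        have c4 : ((4 : ℚ) ^ j) ≠ 0 := by positivity
        have h16 : (16 : ℚ) ^ j = 4 ^ j * 4 ^ j := by rw [← mul_pow]; norm_num
        rw [h16]
        push_cast
        field_simp
      simp only [this]
      push_cast
      rw [neg_neg]
      ring
    rw [e]
    exact h'
  · have h := half_main hn 3
    have h' := h.add (hsn.mul0 (hh_neg_three hn h3'))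
    refine cong_of (y := (-1) ^ n * (chi3 p : ℚ)) ?_ rfl
    have e : (∑ j ∈ range (n + 1), (T 8 9 (2 * j) : ℚ) * (j.centralBinom : ℚ) / 16 ^ j) - (-1) ^ n * (chi3 p : ℚ) =
        (∑ j ∈ range (n + 1), (j.centralBinom : ℚ) / 16 ^ j * (T (2 + 2 * 3) (3 ^ 2) (2 * j) : ℚ)) - (-1) ^ n * hh n (-((3 : ℤ) : ℚ)) +
        (-1) ^ n * (hh n (-3) - chi3 p) := by
      have e1 : (2 + 2 * 3 : ℤ) = 8 := by norm_num
      have e2 : (3 : ℤ) ^ 2 = 9 := by norm_num
      rw [e1, e2]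
      have : ∀ j : ℕ, (T 8 9 (2 * j) : ℚ) * (j.centralBinom : ℚ) / 16 ^ j = (j.centralBinom : ℚ) / 16 ^ j * (T 8 9 (2 * j) : ℚ) := by
        intro j; ring
      simp only [this]
      push_cast
      ring
    rw [e]
    exact h'

end Pool.Agent.Results.MP_20e244_nt.FiveSums
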